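import Pool.Agent.L0h38.GI.Stm
import Pool.Agent.L0h38.GI.Stm2
import Pool.Agent.Q32.DP.SEARCH

/-!
# Project GI: module ALGG (the algorithm for graph products)
-/

set_option autoImplicit false

namespace Pool.Agent.L0h57.GI

open Pool.Agent.L0h38.GI Pool.Agent.Q223.IS Pool.Agent.Q32.DP Pool.Agent.Q32.DP.ALG

/-- Isomorphisms of labelled graphs give isomorphisms of the graph products. -/
theorem gp_congr {V W : Type} {Γ : SimpleGraph V} {Δ : SimpleGraph W} {G : V → Type}
    {H : W → Type} [∀ v, Group (G v)] [∀ w, Group (H w)] (σ : Γ ≃g Δ)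
    (h : ∀ v, Nonempty (G v ≃* H (σ v))) : Nonempty (GrP Γ G ≃* GrP Δ H) := by
  classical
  let e := fun v => (h v).some
  have hex : ∀ w : W, ∃ f : H w →* GrP Γ G, ∀ (v : V) (hv : σ v = w) (y : H w),
      f y = inj Γ G v ((e v).symm (hv.symm ▸ y)) := by
    intro w
    obtain ⟨v, rfl⟩ := σ.surjective w
    refine ⟨(inj Γ G v).comp (e v).symm.toMonoidHom, ?_⟩
    intro v' hv' y
    have hvv : v' = v := σ.injective hv'
    subst hvv
    rfl
  choose f hf using hex
  have hf' : ∀ (v : V) (y : H (σ v)), f (σ v) y = inj Γ G v ((e v).symm y) :=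
    fun v y => hf (σ v) v rfl y
  let F : GrP Γ G →* GrP Δ H := lift (fun v => (inj Δ H (σ v)).comp (e v).toMonoidHom) (by
    intro v w hvw x y
    exact inj_comm (σ.map_adj_iff.2 hvw) _ _)
  let F' : GrP Δ H →* GrP Γ G := lift f (by
    intro w w' hw x y
    obtain ⟨v, rfl⟩ := σ.surjective w
    obtain ⟨v', rfl⟩ := σ.surjective w'
    rw [hf' v x, hf' v' y]
    exact inj_comm (σ.map_adj_iff.1 hw) _ _)
  have hF : ∀ v x, F (inj Γ G v x) = inj Δ H (σ v) (e v x) := fun v x => lift_inj _ _ v x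
  have hF' : ∀ w y, F' (inj Δ H w y) = f w y := fun w y => lift_inj _ _ w y
  refine ⟨MonoidHom.toMulEquiv F F' ?_ ?_⟩
  · apply gp_ext
    intro v x
    rw [MonoidHom.comp_apply, hF, hF', hf', MulEquiv.symm_apply_apply, MonoidHom.id_apply]
  · apply gp_ext
    intro w y
    obtain ⟨v, rfl⟩ := σ.surjective w
    rw [MonoidHom.comp_apply, hF', hf', hF, MulEquiv.apply_symm_apply, MonoidHom.id_apply]

/-- The code of the infinite cyclic group. -/
theorem isZ_code : IsZ (PG ((1, []) : Pres)) := by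
  let F : PG ((1, []) : Pres) →* Multiplicative ℤ :=
    PresentedGroup.toGroup (rels := relSet ((1, []) : Pres))
      (f := fun _ => Multiplicative.ofAdd (1 : ℤ)) (by
        rintro r ⟨w, hw, -⟩
        exact absurd hw (List.not_mem_nil))
  let F' : Multiplicative ℤ →* PG ((1, []) : Pres) :=
    zpowersHom _ (PresentedGroup.of (0 : Fin 1))
  refine ⟨MonoidHom.toMulEquiv F F' ?_ ?_⟩
  · apply PresentedGroup.ext
    intro x
    have hx : x = (0 : Fin 1) := Subsingleton.elim _ _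
    subst hx
    rw [MonoidHom.comp_apply, MonoidHom.id_apply]
    have h1 : F (PresentedGroup.of (0 : Fin 1)) = Multiplicative.ofAdd (1 : ℤ) :=
      PresentedGroup.toGroup.of _
    rw [h1]
    show PresentedGroup.of (0 : Fin 1) ^ (Multiplicative.toAdd (Multiplicative.ofAdd (1 : ℤ))) = _
    rw [toAdd_ofAdd, zpow_one]
  · apply MonoidHom.ext_mint
    rw [MonoidHom.comp_apply, MonoidHom.id_apply]
    have h2 : F' (Multiplicative.ofAdd (1 : ℤ)) = PresentedGroup.of (0 : Fin 1) := by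
      show PresentedGroup.of (0 : Fin 1) ^ (Multiplicative.toAdd (Multiplicative.ofAdd (1 : ℤ))) = _
      rw [toAdd_ofAdd, zpow_one]
    rw [h2]
    exact PresentedGroup.toGroup.of _

theorem isZ_iff (k : Pres) : IsZ (PG k) ↔ IsoP (k, ((1, []) : Pres)) := by
  obtain ⟨z⟩ := isZ_code
  exact ⟨fun ⟨u⟩ => ⟨⟨u.trans z.symm⟩⟩, fun ⟨⟨u⟩⟩ => ⟨u.trans z⟩⟩

open Pool.Agent.Helper926 in
theorem re_D {C : Pres → Prop} (hC : REPred C) : REPred fun k : Pres => C k ∨ IsZ (PG k) := by
  have h1 : REPred fun k : Pres => IsoP (k, ((1, []) : Pres)) :=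
    RE.comp (p := IsoP) re_iso (Computable.id.pair (Computable.const ((1, []) : Pres)))
  have h2 := RE.or hC h1
  exact h2.of_eq fun k => or_congr Iff.rfl (isZ_iff k).symm

/-- Codes of labelled graphs. -/
abbrev LG : Type := List Pres × List (ℕ × ℕ)

/-- The relation of non-isomorphism. -/
def NG (D : Pres → Prop) (Pc : LG → Pres) (Q : LG × LG → Prop) (p : Pres × Pres)
    (x : LG × LG) : Prop :=
  ((∀ k ∈ x.1.1, D k) ∧ ∀ k ∈ x.2.1, D k) ∧
    ((IsoP (p.1, Pc x.1) ∧ IsoP (p.2, Pc x.2)) ∧ Q x)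

open Pool.Agent.Helper926 in
theorem re_NG {D : Pres → Prop} {Pc : LG → Pres} {Q : LG × LG → Prop} (hD : REPred D)
    (hP : Primrec Pc) (hQ : REPred Q) :
    REPred fun p : Pres × Pres => ∃ x, NG D Pc Q p x := by
  have hP' : Computable Pc := hP.to_comp
  have c1 : Computable fun z : (Pres × Pres) × (LG × LG) => z.2.1 :=
    Computable.fst.comp Computable.snd
  have c2 : Computable fun z : (Pres × Pres) × (LG × LG) => z.2.2 :=
    Computable.snd.comp Computable.snd
  have c11 : Computable fun z : (Pres × Pres) × (LG × LG) => z.2.1.1 := Computable.fst.comp c1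
  have c21 : Computable fun z : (Pres × Pres) × (LG × LG) => z.2.2.1 := Computable.fst.comp c2
  have d1 : Computable fun z : (Pres × Pres) × (LG × LG) => z.1.1 :=
    Computable.fst.comp Computable.fst
  have d2 : Computable fun z : (Pres × Pres) × (LG × LG) => z.1.2 :=
    Computable.snd.comp Computable.fst
  have r1 : REPred fun z : (Pres × Pres) × (LG × LG) =>
      (∀ k ∈ z.2.1.1, D k) ∧ ∀ k ∈ z.2.2.1, D k := by
    have h : REPred fun x : ((Pres × Pres) × (LG × LG)) × Pres => D x.2 :=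
      RE.comp (p := D) hD (f := fun x : ((Pres × Pres) × (LG × LG)) × Pres => x.2)
        Computable.snd
    exact RE.and
      (RE.all_mem (p := fun (_ : (Pres × Pres) × (LG × LG)) k => D k) h
        (l := fun z : (Pres × Pres) × (LG × LG) => z.2.1.1) c11)
      (RE.all_mem (p := fun (_ : (Pres × Pres) × (LG × LG)) k => D k) h
        (l := fun z : (Pres × Pres) × (LG × LG) => z.2.2.1) c21)
  have r2 : REPred fun z : (Pres × Pres) × (LG × LG) =>
      IsoP (z.1.1, Pc z.2.1) ∧ IsoP (z.1.2, Pc z.2.2) := by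
    have h1 : Computable fun z : (Pres × Pres) × (LG × LG) => (z.1.1, Pc z.2.1) :=
      d1.pair (hP'.comp c1)
    have h2 : Computable fun z : (Pres × Pres) × (LG × LG) => (z.1.2, Pc z.2.2) :=
      d2.pair (hP'.comp c2)
    exact RE.and (RE.comp (p := IsoP) re_iso h1) (RE.comp (p := IsoP) re_iso h2)
  have r3 : REPred fun z : (Pres × Pres) × (LG × LG) => Q z.2 :=
    RE.comp (p := Q) hQ Computable.snd
  have h : REPred fun z : (Pres × Pres) × (LG × LG) => NG D Pc Q z.1 z.2 := by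
    have h5 := RE.and r1 (RE.and r2 r3)
    exact h5.of_eq fun z => Iff.rfl
  exact RE.ex (p := fun p x => NG D Pc Q p x) h

/-- The code of a graph product. -/
theorem code {C : Pres → Prop} {p : Pres} (h : GPC C p) :
    ∃ (L : List Pres) (E : List (ℕ × ℕ)), (∀ k ∈ L, C k ∨ IsZ (PG k)) ∧
      Nonempty (PG p ≃* GrP (gr E L.length) (fun i : Fin L.length => PG (L.get i))) := by
  classical
  obtain ⟨n, Γ, k, hk, ⟨u⟩⟩ := h
  let E : List (ℕ × ℕ) := (((List.finRange n) ×ˢ (List.finRange n)).filter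
    (fun x => Γ.Adj x.1 x.2)).map (fun x => (x.1.1, x.2.1))
  have hE : ∀ i j : Fin n, (i.1, j.1) ∈ E ↔ Γ.Adj i j := by
    intro i j
    constructor
    · intro hij
      obtain ⟨⟨a, b⟩, hab, heq⟩ := List.mem_map.1 hij
      have h1 := (List.mem_filter.1 hab).2
      have h2 : Γ.Adj a b := by simpa using h1
      have ha : a = i := Fin.ext (Prod.mk.inj heq).1
      have hb : b = j := Fin.ext (Prod.mk.inj heq).2
      rw [← ha, ← hb]
      exact h2
    · intro hij
      refine List.mem_map.2 ⟨(i, j), List.mem_filter.2 ⟨?_, ?_⟩, rfl⟩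
      · exact List.pair_mem_product.2 ⟨List.mem_finRange _, List.mem_finRange _⟩
      · simpa using hij
  have hlen : n = (List.ofFn k).length := (List.length_ofFn).symm
  let σ : Γ ≃g gr E (List.ofFn k).length :=
    { toEquiv := finCongr hlen
      map_rel_iff' := by
        intro i j
        show (finCongr hlen i ≠ finCongr hlen j ∧ ((i.1, j.1) ∈ E ∨ (j.1, i.1) ∈ E)) ↔ Γ.Adj i j
        rw [hE, hE]
        constructor
        · rintro ⟨-, h | h⟩
          · exact h
          · exact h.symm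
        · intro h
          exact ⟨fun h' => h.ne ((finCongr hlen).injective h'), Or.inl h⟩ }
  have hget : ∀ i : Fin n, (List.ofFn k).get (σ i) = k i := by
    intro i
    rw [List.get_ofFn]
    rfl
  refine ⟨List.ofFn k, E, ?_, ?_⟩
  · intro q hq
    obtain ⟨i, rfl⟩ := List.mem_ofFn.1 hq
    exact hk i
  · obtain ⟨v⟩ := gp_congr (H := fun i => PG ((List.ofFn k).get i)) (G := fun i => PG (k i)) σ
      (fun i => by rw [hget i]; exact ⟨MulEquiv.refl _⟩)
    exact ⟨u.trans v⟩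

theorem t_ALGG (h1 : S_UNQ) (h2 : S_COD) (h3 : S_BAD) : S_ALGG := by
  intro C hC hCp hsol
  obtain ⟨f, hf, hf2⟩ := hsol
  obtain ⟨Pc, hPc, hPc2⟩ := h2
  obtain ⟨Q, hQ, hQ2⟩ := h3 C f hC hf (fun k hk => (hCp k hk).2) hf2
  have hOk : ∀ k : Pres, (C k ∨ IsZ (PG k)) → Ok (PG k) := by
    rintro k (hk | hk)
    · exact Or.inl (hCp k hk)
    · exact Or.inr hk
  refine SEARCH.solvable_of (re_NG (re_D hC) hPc hQ) ?_ ?_
  · rintro p q ⟨⟨⟨L, E⟩, ⟨L', E'⟩⟩, ⟨hL, hL'⟩, ⟨⟨⟨u⟩⟩, ⟨⟨u'⟩⟩⟩, hq⟩ ⟨v⟩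
    obtain ⟨w⟩ := hPc2 L E
    obtain ⟨w'⟩ := hPc2 L' E'
    have hiso : Nonempty (GrP (gr E L.length) (fun i : Fin L.length => PG (L.get i)) ≃*
        GrP (gr E' L'.length) (fun i : Fin L'.length => PG (L'.get i))) :=
      ⟨w.symm.trans (u.symm.trans (v.trans (u'.trans w')))⟩
    exact (hQ2 L E L' E' hL hL').1 hq
      (h1 (Fin L.length) (Fin L'.length) (gr E L.length) (gr E' L'.length)
        (fun i => PG (L.get i)) (fun i => PG (L'.get i))
        (fun i => hOk _ (hL _ (List.get_mem _ _))) (fun i => hOk _ (hL' _ (List.get_mem _ _)))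
        hiso)
  · rintro p q hp hq hno
    obtain ⟨L, E, hL, ⟨u⟩⟩ := code hp
    obtain ⟨L', E', hL', ⟨u'⟩⟩ := code hq
    obtain ⟨w⟩ := hPc2 L E
    obtain ⟨w'⟩ := hPc2 L' E'
    refine ⟨((L, E), (L', E')), ⟨hL, hL'⟩, ⟨⟨⟨u.trans w.symm⟩⟩, ⟨⟨u'.trans w'.symm⟩⟩⟩, ?_⟩
    refine (hQ2 L E L' E' hL hL').2 ?_
    rintro ⟨σ, hσ⟩
    obtain ⟨v⟩ := gp_congr (G := fun i => PG (L.get i)) (H := fun i => PG (L'.get i)) σ hσ
    exact hno ⟨u.trans (v.trans u'.symm)⟩

end Pool.Agent.L0h57.GI
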